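import Pool.Agent.Helper565.Sym.All

set_option autoImplicit false

namespace Pool.Agent.Results.MP_76c039_co.OddAndReduction

open Pool.Agent.Helper565.Sym

theorem odd_or_inford (G : Type) [Group G] (h : ∀ g : G, orderOf g ≠ 2)
    (ht : ∀ x : G, IsOfFinOrder x) (x : G) : ∃ m : ℕ, Odd m ∧ x ^ m = 1 := by
  refine ⟨orderOf x, ?_, pow_orderOf_eq_one x⟩
  rcases Nat.even_or_odd (orderOf x) with he | ho
  · exfalso
    obtain ⟨a, ha⟩ := he
    have hpos : 0 < orderOf x := (ht x).orderOf_pos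
    have ha0 : 0 < a := by omega
    apply h (x ^ a)
    rw [orderOf_pow' x (by omega : a ≠ 0), ha, Nat.gcd_eq_right (Dvd.intro 2 (by ring)),
      ← two_mul, Nat.mul_div_cancel _ ha0]
  · exact ho

/-- Symmetric monochromatic subsets of infinite groups. -/
theorem result :
    (∀ (G : Type) [Group G] [Infinite G],
      ((∀ g : G, orderOf g ≠ 2) ∨ {g : G | orderOf g = 2}.Infinite) →
      ∀ (k : ℕ) (c : G → Fin k) (n : ℕ), ∃ (A : Finset G) (g : G),
        n ≤ A.card ∧ (∀ a ∈ A, ∀ b ∈ A, c a = c b) ∧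
        (A : Set G) = (fun x => g * x⁻¹ * g) '' (A : Set G)) ∧
    (∀ (G : Type) [Group G] [Infinite G] (k : ℕ), k ≤ 4 →
      ∀ (c : G → Fin k) (n : ℕ), ∃ (A : Finset G) (g : G),
        n ≤ A.card ∧ (∀ a ∈ A, ∀ b ∈ A, c a = c b) ∧
        (A : Set G) = (fun x => g * x⁻¹ * g) '' (A : Set G)) ∧
    (∀ (G : Type) [Group G] [Infinite G] (k : ℕ),
      (¬ ∀ (c : G → Fin k) (n : ℕ), ∃ (A : Finset G) (g : G),
        n ≤ A.card ∧ (∀ a ∈ A, ∀ b ∈ A, c a = c b) ∧
        (A : Set G) = (fun x => g * x⁻¹ * g) '' (A : Set G)) →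
      ∃ (H : Subgroup G) (K : Type) (_ : Group K) (f : H →* K),
        Function.Surjective f ∧ Finite f.ker ∧ Infinite K ∧
        Finite (Subgroup.center K) ∧ Even (Nat.card (Subgroup.center K)) ∧
        (∀ x : K, ∃ m : ℕ, Odd m ∧ x ^ m ∈ Subgroup.center K) ∧
        (∀ x : K, x ∉ Subgroup.center K → (Subgroup.centralizer {x} : Set K).Finite) ∧
        ∃ (l : ℕ) (c : K → Fin l), 5 ≤ l ∧ l ≤ k ∧
          ∀ g h : K, h ∉ Subgroup.center K → c (g * h) ≠ c (g * h⁻¹)) := by
  refine ⟨?_, ?_, ?_⟩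
  · intro G _ _ h k
    suffices hL : Large G k from hL
    apply amp_large
    rcases h with h | h
    · by_cases ht : ∀ x : G, IsOfFinOrder x
      · exact amp_of_odd G k (odd_or_inford G h ht)
      · push_neg at ht
        obtain ⟨x, hx⟩ := ht
        exact amp_of_inford G k x hx
    · apply amp_of_invol
      apply h.mono
      intro g hg
      have hg' : orderOf g = 2 := hg
      have := pow_orderOf_eq_one g
      rw [hg', sq] at this
      exact this
  · intro G _ _ k hk
    suffices hL : Large G k from hL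
    by_contra hL
    obtain ⟨hfin, c, hc⟩ := strong_col G k hL
    have hcol : Col G k := ⟨hfin.toFinset, c, fun g h hh => hc g h (by simpa using hh)⟩
    obtain ⟨K, _, hK, -, l, hl, hcl⟩ := chain k G hcol
    have := five_le K hK l hcl
    omega
  · intro G _ _ k hL
    have hL' : ¬ Large G k := hL
    obtain ⟨hfin, c, hc⟩ := strong_col G k hL'
    have hcol : Col G k := ⟨hfin.toFinset, c, fun g h hh => hc g h (by simpa using hh)⟩
    obtain ⟨K, hKg, hK, ⟨H, f, hf1, hf2⟩, l, hl, hcl⟩ := chain k G hcol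
    haveI := hK.inf
    obtain ⟨-, c', hc'⟩ := strong_col K l (not_large_of_col K l hcl)
    refine ⟨H, K, hKg, f, hf1, hf2, hK.inf, hK.cen, hK.evn, hK.odd, hK.fin, l, c',
      five_le K hK l hcl, hl, ?_⟩
    intro g h hh
    apply hc'
    intro hfi
    have h1 := hK.fin h hh
    haveI : Finite (Subgroup.centralizer {h} : Subgroup K) := h1
    exact absurd (inferInstance : Infinite K) (by
      rw [not_infinite_iff_finite]
      exact (Subgroup.finite_iff_finite_and_finiteIndex (H := Subgroup.centralizer {h})).2 ⟨inferInstance, hfi⟩)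

end Pool.Agent.Results.MP_76c039_co.OddAndReduction
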